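import Pool.Agent.Q107.PP.All

/-!
# The congruences for `DSOME(n)` modulo 8 and 16

`DSOME(50 n + 21)` is divisible by `8` and `DSOME(100 n + 71)` is divisible by `16`.
-/

namespace Pool.Agent.Results.MP_496c03_nt.AllCongruences

/-- `DSOME(n)`: the sum over the partitions of `n` into distinct parts of the sum of the odd parts
minus the sum of the even parts -/
def DSOME (n : ℕ) : ℤ := ∑ p ∈ Nat.Partition.distincts n,
  (p.parts.map fun a => if Odd a then (a : ℤ) else -(a : ℤ)).sum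

theorem result :
    (∀ n : ℕ, ∀ r ∈ ({21, 71, 121, 171, 221} : Finset ℕ), (8 : ℤ) ∣ DSOME (250 * n + r)) ∧
    (∀ n : ℕ, ∀ s ∈ ({71, 171, 271, 371, 471} : Finset ℕ), (16 : ℤ) ∣ DSOME (500 * n + s)) ∧
    (∀ k : ℕ, ¬ 5 ∣ k → Even k → (8 : ℤ) ∣ DSOME (5 * k + 1)) ∧
    (∀ k : ℕ, ¬ 5 ∣ k → k % 4 = 2 → (16 : ℤ) ∣ DSOME (5 * k + 1)) := by
  have h8 : ∀ k : ℕ, ¬ 5 ∣ k → Even k → (8 : ℤ) ∣ DSOME (5 * k + 1) := fun k h5 h2 =>
    (Q107.PP.all k h5 (Nat.even_iff.1 h2)).1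
  have h16 : ∀ k : ℕ, ¬ 5 ∣ k → k % 4 = 2 → (16 : ℤ) ∣ DSOME (5 * k + 1) := fun k h5 h4 =>
    (Q107.PP.all k h5 (by omega)).2 h4
  refine ⟨fun n r hr => ?_, fun n s hs => ?_, h8, h16⟩
  · simp only [Finset.mem_insert, Finset.mem_singleton] at hr
    obtain ⟨j, hj⟩ : ∃ j : ℕ, 250 * n + r = 5 * (10 * j + 4) + 1 := ⟨(250 * n + r - 21) / 50, by omega⟩
    rw [hj]
    exact h8 _ (by omega) (by rw [Nat.even_iff]; omega)
  · simp only [Finset.mem_insert, Finset.mem_singleton] at hs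
    obtain ⟨j, hj⟩ : ∃ j : ℕ, 500 * n + s = 5 * (20 * j + 14) + 1 := ⟨(500 * n + s - 71) / 100, by omega⟩
    rw [hj]
    exact h16 _ (by omega) (by omega)

end Pool.Agent.Results.MP_496c03_nt.AllCongruences
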